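import Mathlib
import Pool.Agent.Helper42.RP.Cube

/-! A lower bound for moderate deviations of a weighted sum over a random subset. -/

namespace Pool.Agent.Helper11.SO

open Finset Pool.Agent.Helper42.RP

/-- the centred sum -/
noncomputable def cs (T : Finset ℕ) (w : ℕ → ℝ) (U : Finset ℕ) : ℝ :=
  ∑ p ∈ U, w p - (1 / 2) * ∑ p ∈ T, w p

/-- the exponential moment -/
lemma mgf_eq (T : Finset ℕ) (w : ℕ → ℝ) (l : ℝ) :
    ∑ U ∈ T.powerset, Real.exp (l * cs T w U) =
      2 ^ T.card * ∏ p ∈ T, Real.cosh (l * w p / 2) := by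
  have h1 : ∀ U ∈ T.powerset, Real.exp (l * cs T w U) =
      Real.exp (-(l / 2 * ∑ p ∈ T, w p)) * Real.exp (l * ∑ p ∈ U, w p) := by
    intro U _
    rw [← Real.exp_add]
    congr 1
    unfold cs
    ring
  rw [sum_congr rfl h1, ← mul_sum]
  have h2 : ∑ U ∈ T.powerset, Real.exp (l * ∑ p ∈ U, w p) =
      ∏ p ∈ T, (Real.exp (l * w p) + 1) := by
    rw [prod_add]
    apply sum_congr rfl
    intro U _
    rw [prod_const_one, mul_one, mul_sum, Real.exp_sum]
  rw [h2, mul_sum, ← sum_neg_distrib, Real.exp_sum, ← prod_mul_distrib, ← prod_const,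
    ← prod_mul_distrib]
  apply prod_congr rfl
  intro p _
  rw [Real.cosh_eq, mul_add, ← Real.exp_add, mul_one, mul_div_assoc']
  rw [mul_comm (2 : ℝ), mul_div_assoc, div_self (two_ne_zero), mul_one]
  congr 1
  · congr 1; ring
  · congr 1; ring

lemma cosh_ge_one_add (x : ℝ) : 1 + x ^ 2 / 2 ≤ Real.cosh x := by
  have h1 : (x / 2) ^ 2 ≤ Real.sinh (x / 2) ^ 2 := by
    rcases le_total 0 (x / 2) with h | h
    · exact pow_le_pow_left₀ h (Real.self_le_sinh_iff.2 h) 2
    · have h2 : -(x / 2) ≤ Real.sinh (-(x / 2)) := Real.self_le_sinh_iff.2 (by linarith)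
      rw [Real.sinh_neg] at h2
      nlinarith
  have h3 : Real.cosh x = Real.cosh (x / 2) ^ 2 + Real.sinh (x / 2) ^ 2 := by
    rw [← Real.cosh_two_mul]; congr 1; ring
  rw [h3, Real.cosh_sq]
  linarith

lemma cosh_ge (x : ℝ) : Real.exp (x ^ 2 / 2 - x ^ 4 / 8) ≤ Real.cosh x := by
  refine le_trans ?_ (cosh_ge_one_add x)
  have hy : 0 ≤ x ^ 2 / 2 := by positivity
  rw [← Real.le_log_iff_exp_le (by positivity)]
  refine le_trans ?_ (Real.le_log_one_add_of_nonneg hy)
  rw [le_div_iff₀ (by positivity)]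
  nlinarith [mul_nonneg hy (mul_nonneg hy hy)]

lemma mgf_le (T : Finset ℕ) (w : ℕ → ℝ) (l : ℝ) :
    ∑ U ∈ T.powerset, Real.exp (l * cs T w U) ≤
      2 ^ T.card * Real.exp (l ^ 2 * ((∑ p ∈ T, w p ^ 2) / 4) / 2) := by
  rw [mgf_eq]
  apply mul_le_mul_of_nonneg_left _ (by positivity)
  have h1 : ∏ p ∈ T, Real.cosh (l * w p / 2) ≤ ∏ p ∈ T, Real.exp ((l * w p / 2) ^ 2 / 2) :=
    prod_le_prod (fun p _ => (Real.cosh_pos _).le) fun p _ => Real.cosh_le_exp_half_sq _
  refine h1.trans (le_of_eq ?_)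
  rw [← Real.exp_sum]
  congr 1
  rw [sum_div, mul_sum, sum_div]
  apply sum_congr rfl
  intro p _
  ring

lemma mgf_ge (T : Finset ℕ) (w : ℕ → ℝ) (l b : ℝ) (h : ∀ p ∈ T, (l * w p / 2) ^ 2 ≤ b) :
    2 ^ T.card * Real.exp (l ^ 2 * ((∑ p ∈ T, w p ^ 2) / 4) / 2 * (1 - b / 4)) ≤
      ∑ U ∈ T.powerset, Real.exp (l * cs T w U) := by
  rw [mgf_eq]
  apply mul_le_mul_of_nonneg_left _ (by positivity)
  have h1 : ∏ p ∈ T, Real.exp ((l * w p / 2) ^ 2 / 2 * (1 - b / 4)) ≤
      ∏ p ∈ T, Real.cosh (l * w p / 2) := by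
    apply prod_le_prod (fun p _ => (Real.exp_pos _).le)
    intro p hp
    refine le_trans (Real.exp_le_exp.2 ?_) (cosh_ge _)
    have h2 := h p hp
    have h3 : 0 ≤ (l * w p / 2) ^ 2 := sq_nonneg _
    nlinarith [mul_le_mul_of_nonneg_left h2 h3]
  refine le_trans (le_of_eq ?_) h1
  rw [← Real.exp_sum]
  congr 1
  rw [sum_div, mul_sum, sum_div, sum_mul]
  apply sum_congr rfl
  intro p _
  ring

/-- Lower bound for moderate deviations (Kolmogorov). -/
theorem md_lower (T : Finset ℕ) (w : ℕ → ℝ) {V β t : ℝ} (hV : V = (∑ p ∈ T, w p ^ 2) / 4)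
    (hV0 : 0 < V) (hβ : 0 < β) (hβ1 : β ≤ 1 / 3) (ht : 0 < t)
    (hmax : ∀ p ∈ T, ((1 + β) * t) ^ 2 * w p ^ 2 ≤ 4 * β ^ 2 * V)
    (hbig : 4 * Real.log 4 ≤ β ^ 2 * t ^ 2) :
    1 / 2 * Real.exp (-(t ^ 2 * (1 / 2 + 2 * β + 2 * β ^ 2))) ≤
      cp T (fun U => t * √V ≤ cs T w U) := by
  classical
  set s : ℝ := √V with hs
  have hs0 : 0 < s := Real.sqrt_pos.2 hV0
  have hs2 : s ^ 2 = V := Real.sq_sqrt hV0.le
  set l : ℝ := (1 + β) * t / s with hl
  set m : ℝ := β * t / s with hm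
  have hm0 : 0 < m := by positivity
  have hl0 : 0 < l := by positivity
  have hlm : m ≤ l := by
    rw [hm, hl]; apply div_le_div_of_nonneg_right _ hs0.le; nlinarith
  set N : ℝ := 2 ^ T.card with hN
  have hN0 : 0 < N := by positivity
  set E0 : ℝ := t ^ 2 * (1 / 2 + β) with hE0
  set E1 : ℝ := t ^ 2 * ((1 + β) ^ 2 / 2 * (1 - β ^ 2 / 4)) with hE1
  set E2 : ℝ := t ^ 2 * ((1 + β) * (1 + 2 * β)) with hE2
  -- lower bound for the exponential moment
  have hG1 : N * Real.exp E1 ≤ ∑ U ∈ T.powerset, Real.exp (l * cs T w U) := by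
    refine le_trans (le_of_eq ?_) (mgf_ge T w l (β ^ 2) ?_)
    · congr 2
      rw [← hV, hl, ← hs2, hE1]
      field_simp
    · intro p hp
      have h1 := hmax p hp
      have h2 : (l * w p / 2) ^ 2 = ((1 + β) * t) ^ 2 * w p ^ 2 / (4 * V) := by
        rw [hl, ← hs2]; field_simp; ring
      rw [h2, div_le_iff₀ (by positivity)]
      linarith
  -- pointwise
  have hpt : ∀ U ∈ T.powerset, Real.exp (l * cs T w U) ≤
      Real.exp (m * (t * s)) * Real.exp ((l - m) * cs T w U) +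
      Real.exp (-(m * ((1 + 2 * β) * t * s))) * Real.exp ((l + m) * cs T w U) +
      Real.exp (l * ((1 + 2 * β) * t * s)) * (if t * s ≤ cs T w U then 1 else 0) := by
    intro U _
    rcases lt_or_ge (cs T w U) (t * s) with h1 | h1
    · have h2 : Real.exp (l * cs T w U) ≤
          Real.exp (m * (t * s)) * Real.exp ((l - m) * cs T w U) := by
        rw [← Real.exp_add]
        apply Real.exp_le_exp.2
        nlinarith
      rw [if_neg (not_le.2 h1), mul_zero, add_zero]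
      have h3 : 0 ≤ Real.exp (-(m * ((1 + 2 * β) * t * s))) * Real.exp ((l + m) * cs T w U) := by
        positivity
      linarith
    · rw [if_pos h1, mul_one]
      rcases le_or_gt (cs T w U) ((1 + 2 * β) * t * s) with h2 | h2
      · have h3 : Real.exp (l * cs T w U) ≤ Real.exp (l * ((1 + 2 * β) * t * s)) :=
          Real.exp_le_exp.2 (mul_le_mul_of_nonneg_left h2 hl0.le)
        have h4 : 0 ≤ Real.exp (m * (t * s)) * Real.exp ((l - m) * cs T w U) := by positivity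
        have h5 : 0 ≤ Real.exp (-(m * ((1 + 2 * β) * t * s))) *
          Real.exp ((l + m) * cs T w U) := by positivity
        linarith
      · have h3 : Real.exp (l * cs T w U) ≤
            Real.exp (-(m * ((1 + 2 * β) * t * s))) * Real.exp ((l + m) * cs T w U) := by
          rw [← Real.exp_add]
          apply Real.exp_le_exp.2
          nlinarith
        have h4 : 0 ≤ Real.exp (m * (t * s)) * Real.exp ((l - m) * cs T w U) := by positivity
        have h5 : 0 ≤ Real.exp (l * ((1 + 2 * β) * t * s)) := by positivity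
        linarith
  have hsum := hG1.trans (sum_le_sum hpt)
  rw [sum_add_distrib, sum_add_distrib, ← mul_sum, ← mul_sum, ← mul_sum] at hsum
  have hA : Real.exp (m * (t * s)) * ∑ U ∈ T.powerset, Real.exp ((l - m) * cs T w U) ≤
      N * Real.exp E0 := by
    refine (mul_le_mul_of_nonneg_left (mgf_le T w (l - m)) (Real.exp_pos _).le).trans
      (le_of_eq ?_)
    rw [mul_left_comm, ← Real.exp_add]
    congr 2
    rw [← hV, ← hs2, hl, hm, hE0]
    field_simp
    ring
  have hB : Real.exp (-(m * ((1 + 2 * β) * t * s))) *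
      ∑ U ∈ T.powerset, Real.exp ((l + m) * cs T w U) ≤ N * Real.exp E0 := by
    refine (mul_le_mul_of_nonneg_left (mgf_le T w (l + m)) (Real.exp_pos _).le).trans
      (le_of_eq ?_)
    rw [mul_left_comm, ← Real.exp_add]
    congr 2
    rw [← hV, ← hs2, hl, hm, hE0]
    field_simp
    ring
  have hC : ∑ U ∈ T.powerset, (if t * s ≤ cs T w U then (1 : ℝ) else 0) =
      N * cp T (fun U => t * s ≤ cs T w U) := by
    rw [cp_eq, ← sum_filter, sum_const, nsmul_eq_mul, mul_one, ← hN, mul_div_assoc',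
      mul_comm N, mul_div_assoc, div_self hN0.ne', mul_one]
  rw [hC] at hsum
  have hE2' : l * ((1 + 2 * β) * t * s) = E2 := by
    rw [hl, hE2]; field_simp
  rw [hE2'] at hsum
  have hfin : Real.exp E1 ≤ 2 * Real.exp E0 +
      Real.exp E2 * cp T (fun U => t * s ≤ cs T w U) := by
    have : N * Real.exp E1 ≤ N * (2 * Real.exp E0 +
      Real.exp E2 * cp T (fun U => t * s ≤ cs T w U)) := by linarith
    exact le_of_mul_le_mul_left this hN0
  have hb2 : (1 + β) ^ 2 ≤ 2 := by nlinarith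
  have h10 : E0 + Real.log 4 ≤ E1 := by
    have h1 : E1 - E0 = β ^ 2 * t ^ 2 * (1 / 2 - (1 + β) ^ 2 / 8) := by
      rw [hE1, hE0]; ring
    have h2 : (1 / 4 : ℝ) ≤ 1 / 2 - (1 + β) ^ 2 / 8 := by linarith
    have h3 : 0 ≤ β ^ 2 * t ^ 2 := by positivity
    nlinarith [mul_le_mul_of_nonneg_left h2 h3]
  have h11 : 2 * Real.exp E0 ≤ 1 / 2 * Real.exp E1 := by
    have h1 : Real.exp E0 * 4 ≤ Real.exp E1 := by
      have : Real.exp (E0 + Real.log 4) ≤ Real.exp E1 := Real.exp_le_exp.2 h10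
      rwa [Real.exp_add, Real.exp_log (by norm_num)] at this
    linarith
  have h12 : 1 / 2 * Real.exp E1 ≤ Real.exp E2 * cp T (fun U => t * s ≤ cs T w U) := by
    linarith
  have h13 : 1 / 2 * Real.exp (E1 - E2) ≤ cp T (fun U => t * s ≤ cs T w U) := by
    rw [Real.exp_sub, ← mul_div_assoc, div_le_iff₀ (Real.exp_pos _)]
    linarith
  refine le_trans ?_ h13
  apply mul_le_mul_of_nonneg_left (Real.exp_le_exp.2 ?_) (by norm_num)
  have h14 : E1 - E2 = -(t ^ 2 * (1 / 2 + 2 * β + 3 / 2 * β ^ 2 + (1 + β) ^ 2 * β ^ 2 / 8)) := by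
    rw [hE1, hE2]; ring
  rw [h14]
  apply neg_le_neg
  apply mul_le_mul_of_nonneg_left _ (by positivity)
  have : (1 + β) ^ 2 * β ^ 2 ≤ 2 * β ^ 2 := mul_le_mul_of_nonneg_right hb2 (by positivity)
  nlinarith

end Pool.Agent.Helper11.SO
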