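import Mathlib
import Pool.Agent.Helper11.SO.Mod

/-! The inequality of Paley and Zygmund for a weighted sum over a random subset. -/

namespace Pool.Agent.Helper11.SO

open Finset Pool.Agent.Helper42.RP

lemma cs_insert_left {a : ℕ} {T U : Finset ℕ} (w : ℕ → ℝ) (ha : a ∉ T) :
    cs (insert a T) w U = cs T w U - w a / 2 := by
  unfold cs
  rw [sum_insert ha]
  ring

lemma cs_insert_right {a : ℕ} {T U : Finset ℕ} (w : ℕ → ℝ) (ha : a ∉ T) (hU : U ⊆ T) :
    cs (insert a T) w (insert a U) = cs T w U + w a / 2 := by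
  unfold cs
  rw [sum_insert ha, sum_insert fun h => ha (hU h)]
  ring

lemma moments (w : ℕ → ℝ) (T : Finset ℕ) :
    ∑ U ∈ T.powerset, cs T w U ^ 2 = 2 ^ T.card * ((∑ p ∈ T, w p ^ 2) / 4) ∧
    ∑ U ∈ T.powerset, cs T w U ^ 4 ≤ 3 * 2 ^ T.card * ((∑ p ∈ T, w p ^ 2) / 4) ^ 2 := by
  classical
  induction T using Finset.induction_on with
  | empty => simp [cs]
  | insert a T ha ih =>
    obtain ⟨h2, h4⟩ := ih
    have e2 : ∑ U ∈ (insert a T).powerset, cs (insert a T) w U ^ 2 =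
        2 * ∑ U ∈ T.powerset, cs T w U ^ 2 + 2 * (2 ^ T.card * (w a / 2) ^ 2) := by
      rw [sum_powerset_insert ha, ← sum_add_distrib]
      have : ∀ U ∈ T.powerset, cs (insert a T) w U ^ 2 + cs (insert a T) w (insert a U) ^ 2 =
          2 * cs T w U ^ 2 + 2 * (w a / 2) ^ 2 := by
        intro U hU
        rw [cs_insert_left w ha, cs_insert_right w ha (mem_powerset.1 hU)]
        ring
      rw [sum_congr rfl this, sum_add_distrib, ← mul_sum, sum_const, card_powerset, nsmul_eq_mul]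
      push_cast
      ring
    have e4 : ∑ U ∈ (insert a T).powerset, cs (insert a T) w U ^ 4 =
        2 * ∑ U ∈ T.powerset, cs T w U ^ 4 + 12 * (w a / 2) ^ 2 * ∑ U ∈ T.powerset, cs T w U ^ 2 +
        2 * (2 ^ T.card * (w a / 2) ^ 4) := by
      rw [sum_powerset_insert ha, ← sum_add_distrib]
      have : ∀ U ∈ T.powerset, cs (insert a T) w U ^ 4 + cs (insert a T) w (insert a U) ^ 4 =
          2 * cs T w U ^ 4 + 12 * (w a / 2) ^ 2 * cs T w U ^ 2 + 2 * (w a / 2) ^ 4 := by
        intro U hU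
        rw [cs_insert_left w ha, cs_insert_right w ha (mem_powerset.1 hU)]
        ring
      rw [sum_congr rfl this, sum_add_distrib, sum_add_distrib, ← mul_sum, ← mul_sum, sum_const,
        card_powerset, nsmul_eq_mul]
      push_cast
      ring
    rw [e2, e4, card_insert_of_notMem ha, sum_insert ha, h2]
    set N : ℝ := 2 ^ T.card with hN
    have hN0 : 0 < N := by positivity
    set V : ℝ := (∑ p ∈ T, w p ^ 2) / 4 with hV
    have hV' : (w a ^ 2 + ∑ p ∈ T, w p ^ 2) / 4 = V + (w a / 2) ^ 2 := by rw [hV]; ring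
    rw [hV', pow_succ (2 : ℝ) T.card, ← hN]
    constructor
    · ring
    · have h5 : 0 ≤ N * (w a / 2) ^ 4 := by positivity
      nlinarith

/-- at least `3/16` of the subsets have a large centred sum in absolute value -/
lemma pz_abs (T : Finset ℕ) (w : ℕ → ℝ) {V : ℝ} (hV : V = (∑ p ∈ T, w p ^ 2) / 4)
    (hV0 : 0 < V) : 3 / 16 ≤ cp T (fun U => V / 4 ≤ cs T w U ^ 2) := by
  classical
  obtain ⟨h2, h4⟩ := moments w T
  rw [← hV] at h2 h4
  set N : ℝ := 2 ^ T.card with hN
  have hN0 : 0 < N := by positivity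
  set A := T.powerset.filter (fun U => V / 4 ≤ cs T w U ^ 2) with hA
  have h5 : N * V ≤ ∑ U ∈ A, cs T w U ^ 2 + N * (V / 4) := by
    rw [← h2, ← sum_filter_add_sum_filter_not T.powerset (fun U => V / 4 ≤ cs T w U ^ 2)]
    apply add_le_add le_rfl
    have : ∑ U ∈ T.powerset.filter (fun U => ¬ V / 4 ≤ cs T w U ^ 2), cs T w U ^ 2 ≤
        ∑ U ∈ T.powerset.filter (fun U => ¬ V / 4 ≤ cs T w U ^ 2), V / 4 :=
      sum_le_sum fun U hU => (not_le.1 (mem_filter.1 hU).2).le
    refine this.trans ?_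
    refine (sum_le_sum_of_subset_of_nonneg (filter_subset _ _) fun U _ _ => by positivity).trans ?_
    rw [sum_const, card_powerset, nsmul_eq_mul]
    push_cast
    exact le_rfl
  have h6 : (∑ U ∈ A, cs T w U ^ 2) ^ 2 ≤ (A.card : ℝ) * (3 * N * V ^ 2) := by
    have h7 := sq_sum_le_card_mul_sum_sq (s := A) (f := fun U => cs T w U ^ 2)
    refine h7.trans (mul_le_mul_of_nonneg_left ?_ (by positivity))
    refine le_trans ?_ h4
    have : ∀ U ∈ A, (cs T w U ^ 2) ^ 2 = cs T w U ^ 4 := fun U _ => by ring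
    rw [sum_congr rfl this]
    exact sum_le_sum_of_subset_of_nonneg (filter_subset _ _) fun U _ _ => by positivity
  have h8 : 3 / 4 * (N * V) ≤ ∑ U ∈ A, cs T w U ^ 2 := by linarith
  have h9 : (3 / 4 * (N * V)) ^ 2 ≤ (A.card : ℝ) * (3 * N * V ^ 2) :=
    (pow_le_pow_left₀ (by positivity) h8 2).trans h6
  rw [cp_eq, le_div_iff₀ hN0, ← hA]
  have h10 : (3 * N * V ^ 2) * (3 / 16 * N) ≤ (3 * N * V ^ 2) * (A.card : ℝ) := by nlinarith
  exact le_of_mul_le_mul_left h10 (by positivity)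

lemma cs_compl {T U : Finset ℕ} (w : ℕ → ℝ) (hU : U ⊆ T) : cs T w (T \ U) = -cs T w U := by
  unfold cs
  have := sum_sdiff (f := w) hU
  linarith

/-- at least `3/32` of the subsets have a large centred sum -/
theorem pz_lower (T : Finset ℕ) (w : ℕ → ℝ) {V : ℝ} (hV : V = (∑ p ∈ T, w p ^ 2) / 4)
    (hV0 : 0 < V) : 3 / 32 ≤ cp T (fun U => √V / 2 ≤ cs T w U) := by
  have h1 : cp T (fun U => V / 4 ≤ cs T w U ^ 2) ≤
      cp T (fun U => √V / 2 ≤ cs T w U ∨ √V / 2 ≤ cs T w (T \ U)) := by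
    apply cp_mono
    intro U hU h2
    rw [cs_compl w hU]
    have h3 : √V / 2 ≤ |cs T w U| := by
      apply Real.le_sqrt_of_sq_le _ |>.trans
      · exact (Real.sqrt_sq_eq_abs _).le
      · rw [div_pow, Real.sq_sqrt hV0.le]; linarith
    rcases le_abs.1 h3 with h | h
    · exact Or.inl h
    · exact Or.inr h
  have h2 := cp_or T (fun U => √V / 2 ≤ cs T w U) (fun U => √V / 2 ≤ cs T w (T \ U))
  have h3 := cp_compl T (fun U => √V / 2 ≤ cs T w U)
  have h4 := pz_abs T w hV hV0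
  rw [h3] at h2
  linarith

/-- the symmetric half, in terms of the centred sum -/
lemma half_lower (T : Finset ℕ) (w : ℕ → ℝ) : 1 / 2 ≤ cp T (fun U => 0 ≤ cs T w U) := by
  refine (cp_half T w).trans (cp_mono T fun U _ h => ?_)
  unfold cs
  linarith

end Pool.Agent.Helper11.SO
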