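import Mathlib
import Pool.Agent.Helper11.SO.PZ

/-! The probability of a large deviation, for abstract weights. -/

namespace Pool.Agent.Helper11.SO

open Finset Pool.Agent.Helper42.RP

lemma cs_split {A T U : Finset ℕ} (w : ℕ → ℝ) (hA : A ⊆ T) (hU : U ⊆ T) :
    cs T w U = cs A w (U ∩ A) + cs (T \ A) w (U ∩ (T \ A)) := by
  unfold cs
  have h1 := sum_sdiff (f := w) hA
  have h2 : ∑ p ∈ U, w p = ∑ p ∈ U ∩ A, w p + ∑ p ∈ U ∩ (T \ A), w p := by
    rw [← sum_union]
    · congr 1
      rw [← inter_union_distrib_left, union_sdiff_of_subset hA, inter_eq_left.2 hU]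
    · exact disjoint_sdiff.mono inter_subset_right inter_subset_right
  rw [h2]
  linarith

/-- a subset of the primes decides, the others help with probability one half -/
lemma half_rest {A T : Finset ℕ} (w : ℕ → ℝ) (hA : A ⊆ T) (x : ℝ) :
    1 / 2 * cp A (fun U => x ≤ cs A w U) ≤ cp T (fun U => x ≤ cs T w U) := by
  have h1 := cp_indep A (T \ A) disjoint_sdiff (fun U => x ≤ cs A w U)
    (fun U => 0 ≤ cs (T \ A) w U)
  rw [union_sdiff_of_subset hA] at h1
  have h2 := half_lower (T \ A) w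
  have h3 := cp_nonneg A (fun U => x ≤ cs A w U)
  refine le_trans ?_ (cp_mono T (φ := fun U => x ≤ cs A w (U ∩ A) ∧
    0 ≤ cs (T \ A) w (U ∩ (T \ A))) ?_)
  · rw [h1]
    nlinarith
  · rintro U hU ⟨h4, h5⟩
    rw [cs_split w hA hU]
    linarith

theorem core (T : Finset ℕ) (w : ℕ → ℝ) {n c κ θ : ℝ} (hw : ∀ p ∈ T, 0 ≤ w p)
    (hκ0 : 0 < κ) (hκ1 : κ ≤ 1 / 6) (hc : 0 < c) (hθ1 : θ < 1)
    (hθ : c ^ 2 = θ * ((1 - κ) ^ 2 * Real.log 2)) (hn : 22 ≤ n)
    (hsum : (n - 1) * Real.log 2 ≤ ∑ p ∈ T, w p)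
    (hbad : ∑ p ∈ T.filter (fun p => w p < 2 * (1 - κ) * Real.log n), w p ≤
      κ * n * Real.log 2 / 4)
    (E1 : 4 * Real.log 4 / κ ^ 2 ≤ 2 * θ * Real.log n)
    (E2 : 1 ≤ κ / 4 * n)
    (E3 : 4 * Real.exp (θ * (1 + 2 * κ) ^ 2 * Real.log n) ≤ n)
    (E4 : 16 * (c ^ 2 * n * Real.log n ^ 2) ≤ κ / 2 * √n * (κ * n * Real.log 2 / 4)) :
    1 / n ≤ cp T (fun U => c * √n * Real.log n ≤ cs T w U) := by
  classical
  have hn0 : 0 < n := by linarith
  have hl2 : 0 < Real.log 2 := Real.log_pos (by norm_num)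
  have hlog : 0 < Real.log n := Real.log_pos (by linarith)
  have hsq : 0 < √n := Real.sqrt_pos.2 hn0
  have hsq2 : √n ^ 2 = n := Real.sq_sqrt hn0.le
  set x : ℝ := c * √n * Real.log n with hx
  have hx0 : 0 < x := by positivity
  have hx2 : x ^ 2 = c ^ 2 * n * Real.log n ^ 2 := by
    rw [hx, mul_pow, mul_pow, hsq2]
  set L := T.filter (fun p => κ / 2 * √n < w p) with hL
  have hLT : L ⊆ T := filter_subset _ _
  rcases le_or_gt (κ * n * Real.log 2 / 4) (∑ p ∈ L, w p) with hcase | hcase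
  · -- many large weights
    set V : ℝ := (∑ p ∈ L, w p ^ 2) / 4 with hV
    have h1 : κ / 2 * √n * (κ * n * Real.log 2 / 4) ≤ ∑ p ∈ L, w p ^ 2 := by
      calc κ / 2 * √n * (κ * n * Real.log 2 / 4) ≤ κ / 2 * √n * ∑ p ∈ L, w p :=
            mul_le_mul_of_nonneg_left hcase (by positivity)
        _ = ∑ p ∈ L, κ / 2 * √n * w p := by rw [mul_sum]
        _ ≤ ∑ p ∈ L, w p ^ 2 := by
            apply sum_le_sum
            intro p hp
            have h2 := (mem_filter.1 hp).2
            have h3 := hw p (hLT hp)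
            rw [sq]
            exact mul_le_mul_of_nonneg_right h2.le h3
    have h4 : 4 * x ^ 2 ≤ V := by
      rw [hV, hx2]; linarith
    have hV0 : 0 < V := by nlinarith [pow_pos hx0 2]
    have h5 := pz_lower L w hV hV0
    have h6 : x ≤ √V / 2 := by
      have : 2 * x ≤ √V := Real.le_sqrt_of_sq_le (by nlinarith)
      linarith
    have h7 : cp L (fun U => √V / 2 ≤ cs L w U) ≤ cp L (fun U => x ≤ cs L w U) :=
      cp_mono L fun U _ h => h6.trans h
    have h8 := half_rest w hLT x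
    have h9 : 1 / n ≤ 3 / 64 := by
      rw [div_le_iff₀ hn0]; linarith
    linarith
  · -- few large weights
    set S := T \ L with hS
    have hST : S ⊆ T := sdiff_subset
    have hSmem : ∀ p ∈ S, p ∈ T ∧ w p ≤ κ / 2 * √n := by
      intro p hp
      rw [hS, mem_sdiff, hL, mem_filter] at hp
      refine ⟨hp.1, ?_⟩
      by_contra h
      exact hp.2 ⟨hp.1, not_le.1 h⟩
    set V : ℝ := (∑ p ∈ S, w p ^ 2) / 4 with hV
    have h1 : (1 - κ) * (n * Real.log 2) ≤ ∑ p ∈ S, w p -
        ∑ p ∈ S.filter (fun p => w p < 2 * (1 - κ) * Real.log n), w p := by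
      have h2 : ∑ p ∈ S, w p + ∑ p ∈ L, w p = ∑ p ∈ T, w p := sum_sdiff hLT
      have h3 : ∑ p ∈ S.filter (fun p => w p < 2 * (1 - κ) * Real.log n), w p ≤
          ∑ p ∈ T.filter (fun p => w p < 2 * (1 - κ) * Real.log n), w p :=
        sum_le_sum_of_subset_of_nonneg (filter_subset_filter _ hST)
          fun p hp _ => hw p (mem_filter.1 hp).1
      have h4 : Real.log 2 ≤ κ / 4 * n * Real.log 2 := by
        nlinarith [mul_le_mul_of_nonneg_right E2 hl2.le]
      nlinarith
    have h2 : 2 * (1 - κ) * Real.log n * ((1 - κ) * (n * Real.log 2)) ≤ ∑ p ∈ S, w p ^ 2 := by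
      calc 2 * (1 - κ) * Real.log n * ((1 - κ) * (n * Real.log 2))
          ≤ 2 * (1 - κ) * Real.log n * (∑ p ∈ S, w p -
            ∑ p ∈ S.filter (fun p => w p < 2 * (1 - κ) * Real.log n), w p) := by
            apply mul_le_mul_of_nonneg_left h1
            have : 0 < 1 - κ := by linarith
            positivity
        _ = ∑ p ∈ S.filter (fun p => ¬ w p < 2 * (1 - κ) * Real.log n),
            2 * (1 - κ) * Real.log n * w p := by
            rw [← mul_sum]
            congr 1
            have := sum_filter_add_sum_filter_not S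
              (fun p => w p < 2 * (1 - κ) * Real.log n) w
            linarith
        _ ≤ ∑ p ∈ S.filter (fun p => ¬ w p < 2 * (1 - κ) * Real.log n), w p ^ 2 := by
            apply sum_le_sum
            intro p hp
            obtain ⟨h3, h4⟩ := mem_filter.1 hp
            rw [sq]
            exact mul_le_mul_of_nonneg_right (not_lt.1 h4) (hw p (hST h3))
        _ ≤ ∑ p ∈ S, w p ^ 2 :=
            sum_le_sum_of_subset_of_nonneg (filter_subset _ _) fun p _ _ => sq_nonneg _
    have hκ2 : 0 < (1 - κ) ^ 2 := by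
      have : 0 < 1 - κ := by linarith
      positivity
    have hVge : (1 - κ) ^ 2 * Real.log 2 * (n * Real.log n) / 2 ≤ V := by
      rw [hV]; nlinarith
    have hV0 : 0 < V := lt_of_lt_of_le (by positivity) hVge
    have hθ0 : 0 < θ := by
      have h3 : 0 < θ * ((1 - κ) ^ 2 * Real.log 2) := by rw [← hθ]; positivity
      exact (pos_iff_pos_of_mul_pos h3).2 (by positivity)
    set t0 : ℝ := √(4 * Real.log 4 / κ ^ 2) with ht0
    have hl4 : 0 < Real.log 4 := Real.log_pos (by norm_num)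
    have ht0p : 0 < t0 := Real.sqrt_pos.2 (by positivity)
    have ht02 : t0 ^ 2 = 4 * Real.log 4 / κ ^ 2 := Real.sq_sqrt (by positivity)
    have hsV : 0 < √V := Real.sqrt_pos.2 hV0
    have hsV2 : √V ^ 2 = V := Real.sq_sqrt hV0.le
    set t : ℝ := max (x / √V) t0 with ht
    have htp : 0 < t := lt_of_lt_of_le ht0p (le_max_right _ _)
    have ht2 : t ^ 2 ≤ 2 * θ * Real.log n := by
      rcases max_choice (x / √V) t0 with h | h
      · rw [ht, h, div_pow, hsV2, div_le_iff₀ hV0, hx2]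
        calc c ^ 2 * n * Real.log n ^ 2 =
            2 * θ * Real.log n * ((1 - κ) ^ 2 * Real.log 2 * (n * Real.log n) / 2) := by
              rw [hθ]; ring
          _ ≤ 2 * θ * Real.log n * V :=
              mul_le_mul_of_nonneg_left hVge (by positivity)
      · rw [ht, h, ht02]; exact E1
    have hmax : ∀ p ∈ S, ((1 + κ) * t) ^ 2 * w p ^ 2 ≤ 4 * κ ^ 2 * V := by
      intro p hp
      obtain ⟨hpT, hpw⟩ := hSmem p hp
      have h3 : w p ^ 2 ≤ κ ^ 2 * n / 4 := by
        have := pow_le_pow_left₀ (hw p hpT) hpw 2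
        rw [mul_pow, hsq2] at this
        linarith
      have h4 : ((1 + κ) * t) ^ 2 ≤ 49 / 36 * (2 * Real.log n) := by
        rw [mul_pow]
        have h5 : (1 + κ) ^ 2 ≤ 49 / 36 := by nlinarith
        have h6 : t ^ 2 ≤ 2 * Real.log n := by nlinarith
        exact mul_le_mul h5 h6 (sq_nonneg _) (by norm_num)
      have h7 : ((1 + κ) * t) ^ 2 * w p ^ 2 ≤ 49 / 36 * (2 * Real.log n) * (κ ^ 2 * n / 4) :=
        mul_le_mul h4 h3 (sq_nonneg _) (by positivity)
      refine h7.trans ?_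
      have h8 : (25 / 36 : ℝ) ≤ (1 - κ) ^ 2 := by nlinarith
      have h9 : (1 / 2 : ℝ) ≤ Real.log 2 := by
        have := Real.log_two_gt_d9; linarith
      have h10 : (25 / 72 : ℝ) * (n * Real.log n) / 2 ≤ V := by
        refine le_trans ?_ hVge
        have h11 : (25 / 72 : ℝ) ≤ (1 - κ) ^ 2 * Real.log 2 := by nlinarith
        have h12 : 0 ≤ n * Real.log n := by positivity
        nlinarith [mul_le_mul_of_nonneg_right h11 h12]
      have h13 : 49 / 36 * (2 * Real.log n) * (κ ^ 2 * n / 4) =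
          4 * κ ^ 2 * (49 / 288 * (n * Real.log n)) := by ring
      rw [h13]
      apply mul_le_mul_of_nonneg_left _ (by positivity)
      have h12 : 0 ≤ n * Real.log n := by positivity
      linarith
    have hbig : 4 * Real.log 4 ≤ κ ^ 2 * t ^ 2 := by
      have h3 : t0 ^ 2 ≤ t ^ 2 := pow_le_pow_left₀ ht0p.le (le_max_right _ _) 2
      rw [ht02, div_le_iff₀ (by positivity)] at h3
      linarith
    have h3 := md_lower S w hV hV0 hκ0 (by linarith) htp hmax hbig
    have h4 : cp S (fun U => t * √V ≤ cs S w U) ≤ cp S (fun U => x ≤ cs S w U) := by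
      apply cp_mono
      intro U _ h
      refine le_trans ?_ h
      rw [← div_le_iff₀ hsV]
      exact le_max_left _ _
    have h5 := half_rest w hST x
    have h6 : Real.exp (-(θ * (1 + 2 * κ) ^ 2 * Real.log n)) ≤
        Real.exp (-(t ^ 2 * (1 / 2 + 2 * κ + 2 * κ ^ 2))) := by
      apply Real.exp_le_exp.2
      apply neg_le_neg
      have : t ^ 2 * (1 / 2 + 2 * κ + 2 * κ ^ 2) ≤
          2 * θ * Real.log n * (1 / 2 + 2 * κ + 2 * κ ^ 2) :=
        mul_le_mul_of_nonneg_right ht2 (by positivity)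
      linarith
    have h7 : 4 / n ≤ Real.exp (-(θ * (1 + 2 * κ) ^ 2 * Real.log n)) := by
      rw [Real.exp_neg, div_le_iff₀ hn0, ← div_eq_inv_mul, le_div_iff₀ (Real.exp_pos _)]
      exact E3
    have h8 : 1 / n = 1 / 4 * (4 / n) := by field_simp
    rw [h8]
    linarith

end Pool.Agent.Helper11.SO
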