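import Mathlib
import Pool.Agent.Helper11.SO.Core
import Pool.Agent.Helper42.RP.Main

/-! The weights of the prime powers of `2^n-1` for prime `n`. -/

namespace Pool.Agent.Helper11.SO

open Finset Filter Pool.Agent.Helper42.RP

lemma MS_T (n : ℕ) : MS.T n = (2 ^ n - 1).primeFactors := rfl

lemma MS_w (n p : ℕ) : MS.w n p = ((2 ^ n - 1).factorization p : ℝ) * Real.log p := rfl

/-- prime factors of `2^n-1` are `1` modulo `n` if `n` is prime -/
lemma dvd_sub_one {n p : ℕ} (hn : n.Prime) (hp : p ∈ MS.T n) : n ∣ p - 1 := by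
  have hpp : p.Prime := MS_prime n p hp
  have hd : p ∣ 2 ^ n - 1 := Nat.dvd_of_mem_primeFactors hp
  haveI : Fact p.Prime := ⟨hpp⟩
  have h1 : (2 : ZMod p) ^ n = 1 := by
    have h2 : ((2 ^ n - 1 : ℕ) : ZMod p) = 0 := (ZMod.natCast_eq_zero_iff _ _).2 hd
    rw [Nat.cast_sub Nat.one_le_two_pow] at h2
    push_cast at h2
    exact sub_eq_zero.1 h2
  have h3 : orderOf (2 : ZMod p) ∣ n := orderOf_dvd_of_pow_eq_one h1
  have h4 : orderOf (2 : ZMod p) ≠ 1 := by
    intro h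
    rw [orderOf_eq_one_iff] at h
    have h5 : (1 : ZMod p) = 0 := by
      have : (2 : ZMod p) - 1 = 0 := by rw [h, sub_self]
      have e : (2 : ZMod p) - 1 = 1 := by ring
      rwa [e] at this
    exact one_ne_zero h5
  have h5 : orderOf (2 : ZMod p) = n := (Nat.dvd_prime hn).1 h3 |>.resolve_left h4
  have h6 : (2 : ZMod p) ≠ 0 := by
    intro h
    rw [h, zero_pow hn.ne_zero] at h1
    exact zero_ne_one h1
  rw [← h5]
  exact ZMod.orderOf_dvd_card_sub_one h6

/-- there are few primes of small weight -/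
lemma bad_card {n : ℕ} (hn : n.Prime) (κ : ℝ) :
    (((MS.T n).filter (fun p => MS.w n p < 2 * (1 - κ) * Real.log n)).card : ℝ) ≤
      (n : ℝ) ^ (1 - 2 * κ) := by
  classical
  have hn0 : (0 : ℝ) < n := by exact_mod_cast hn.pos
  set B := (MS.T n).filter (fun p => MS.w n p < 2 * (1 - κ) * Real.log n) with hB
  have h1 : B.card ≤ (Icc 1 ⌊(n : ℝ) ^ (1 - 2 * κ)⌋₊).card := by
    apply card_le_card_of_injOn (fun p => (p - 1) / n)
    · intro p hp
      obtain ⟨hpT, hpw⟩ := mem_filter.1 (mem_coe.1 hp)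
      have hpp : p.Prime := MS_prime n p hpT
      obtain ⟨k, hk⟩ := dvd_sub_one hn hpT
      have hk2 : (p - 1) / n = k := by rw [hk, Nat.mul_div_cancel_left _ hn.pos]
      have hk0 : 1 ≤ k := by
        rcases Nat.eq_zero_or_pos k with h | h
        · rw [h, mul_zero] at hk
          have := hpp.two_le
          omega
        · exact h
      simp only [coe_Icc, Set.mem_Icc]
      rw [hk2]
      refine ⟨hk0, ?_⟩
      apply Nat.le_floor
      have hv : (1 : ℝ) ≤ ((2 ^ n - 1).factorization p : ℝ) := by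
        have : 0 < (2 ^ n - 1).factorization p :=
          hpp.factorization_pos_of_dvd (Nat.mem_primeFactors.1 hpT).2.2
            (Nat.dvd_of_mem_primeFactors hpT)
        exact_mod_cast this
      have hlp : 0 ≤ Real.log p := Real.log_natCast_nonneg p
      have h2 : Real.log p < 2 * (1 - κ) * Real.log n := by
        refine lt_of_le_of_lt ?_ hpw
        rw [MS_w]
        nlinarith
      have hp0 : (0 : ℝ) < p := by exact_mod_cast hpp.pos
      have h3 : (p : ℝ) < (n : ℝ) ^ (2 * (1 - κ)) := by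
        rw [← Real.log_lt_log_iff hp0 (Real.rpow_pos_of_pos hn0 _), Real.log_rpow hn0]
        exact h2
      have h4 : (n : ℝ) * k < (n : ℝ) ^ (2 * (1 - κ)) := by
        refine lt_of_le_of_lt ?_ h3
        have : n * k ≤ p := by omega
        exact_mod_cast this
      have h5 : (n : ℝ) ^ (2 * (1 - κ)) = n * (n : ℝ) ^ (1 - 2 * κ) := by
        rw [show 2 * (1 - κ) = 1 + (1 - 2 * κ) by ring, Real.rpow_add hn0, Real.rpow_one]
      rw [h5] at h4
      exact (lt_of_mul_lt_mul_left h4 hn0.le).le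
    · intro p hp q hq hpq
      obtain ⟨hpT, -⟩ := mem_filter.1 (mem_coe.1 hp)
      obtain ⟨hqT, -⟩ := mem_filter.1 (mem_coe.1 hq)
      have h2 := Nat.div_mul_cancel (dvd_sub_one hn hpT)
      have h3 := Nat.div_mul_cancel (dvd_sub_one hn hqT)
      have h4 := (MS_prime n p hpT).two_le
      have h5 := (MS_prime n q hqT).two_le
      have h6 : p - 1 = q - 1 := by
        rw [← h2, ← h3]
        exact congrArg (· * n) hpq
      omega
  rw [Nat.card_Icc, Nat.add_sub_cancel] at h1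
  exact (Nat.cast_le.2 h1).trans (Nat.floor_le (Real.rpow_nonneg hn0.le _))

/-- the elementary asymptotics -/
lemma eventually_all {c κ θ : ℝ} (hκ0 : 0 < κ) (hθ0 : 0 < θ)
    (h1 : θ * (1 + 2 * κ) ^ 2 < 1) :
    ∀ᶠ x : ℝ in atTop, 22 ≤ x ∧ 4 * Real.log 4 / κ ^ 2 ≤ 2 * θ * Real.log x ∧
      1 ≤ κ / 4 * x ∧ 4 * Real.exp (θ * (1 + 2 * κ) ^ 2 * Real.log x) ≤ x ∧
      16 * (c ^ 2 * x * Real.log x ^ 2) ≤ κ / 2 * √x * (κ * x * Real.log 2 / 4) ∧
      x ^ (1 - 2 * κ) * (2 * |1 - κ| * Real.log x) ≤ κ * x * Real.log 2 / 4 := by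
  have hl2 : 0 < Real.log 2 := Real.log_pos (by norm_num)
  have e1 := Real.tendsto_log_atTop.eventually_ge_atTop (4 * Real.log 4 / κ ^ 2 / (2 * θ))
  have e2 := eventually_ge_atTop (4 / κ : ℝ)
  have e3 := Real.tendsto_log_atTop.eventually_ge_atTop
    (Real.log 4 / (1 - θ * (1 + 2 * κ) ^ 2))
  have e4 : ∀ᶠ x : ℝ in atTop, ‖Real.log x ^ (2 : ℝ)‖ ≤
      κ ^ 2 * Real.log 2 / (128 * (c ^ 2 + 1)) * ‖x ^ (1 / 2 : ℝ)‖ :=
    (isLittleO_log_rpow_rpow_atTop (s := 1 / 2) (2 : ℝ) (by norm_num)).bound (by positivity)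
  have e5 : ∀ᶠ x : ℝ in atTop, ‖Real.log x ^ (1 : ℝ)‖ ≤
      κ * Real.log 2 / (8 * (|1 - κ| + 1)) * ‖x ^ (2 * κ)‖ :=
    (isLittleO_log_rpow_rpow_atTop (s := 2 * κ) (1 : ℝ) (by positivity)).bound (by positivity)
  filter_upwards [e1, e2, e3, e4, e5, eventually_ge_atTop (22 : ℝ)] with x a1 a2 a3 a4 a5 a6
  have hx0 : 0 < x := by linarith
  have hlog : 0 < Real.log x := Real.log_pos (by linarith)
  refine ⟨a6, ?_, ?_, ?_, ?_, ?_⟩
  · rw [div_le_iff₀ (by positivity)] at a1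
    linarith
  · rw [div_le_iff₀ hκ0] at a2
    linarith
  · have h2 : 0 < 1 - θ * (1 + 2 * κ) ^ 2 := by linarith
    rw [div_le_iff₀ h2] at a3
    have h3 : Real.log 4 + θ * (1 + 2 * κ) ^ 2 * Real.log x ≤ Real.log x := by nlinarith
    calc 4 * Real.exp (θ * (1 + 2 * κ) ^ 2 * Real.log x)
        = Real.exp (Real.log 4 + θ * (1 + 2 * κ) ^ 2 * Real.log x) := by
          rw [Real.exp_add, Real.exp_log (by norm_num)]
      _ ≤ Real.exp (Real.log x) := Real.exp_le_exp.2 h3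
      _ = x := Real.exp_log hx0
  · rw [Real.rpow_two, Real.norm_of_nonneg (by positivity), Real.norm_of_nonneg (by positivity),
      ← Real.sqrt_eq_rpow] at a4
    have h2 : c ^ 2 * Real.log x ^ 2 ≤ κ ^ 2 * Real.log 2 / 128 * √x := by
      have h3 : c ^ 2 * Real.log x ^ 2 ≤ (c ^ 2 + 1) * Real.log x ^ 2 := by nlinarith [sq_nonneg (Real.log x)]
      refine h3.trans ((mul_le_mul_of_nonneg_left a4 (by positivity)).trans (le_of_eq ?_))
      field_simp
    have h4 := mul_le_mul_of_nonneg_left h2 (by positivity : (0 : ℝ) ≤ 16 * x)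
    calc 16 * (c ^ 2 * x * Real.log x ^ 2) = 16 * x * (c ^ 2 * Real.log x ^ 2) := by ring
      _ ≤ 16 * x * (κ ^ 2 * Real.log 2 / 128 * √x) := h4
      _ = κ / 2 * √x * (κ * x * Real.log 2 / 4) := by ring
  · rw [Real.rpow_one, Real.norm_of_nonneg (by positivity), Real.norm_of_nonneg (by positivity)]
      at a5
    have h2 : |1 - κ| * Real.log x ≤ κ * Real.log 2 / 8 * x ^ (2 * κ) := by
      have h3 : |1 - κ| * Real.log x ≤ (|1 - κ| + 1) * Real.log x := by nlinarith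
      refine h3.trans ((mul_le_mul_of_nonneg_left a5 (by positivity)).trans (le_of_eq ?_))
      field_simp
    have h4 : x ^ (1 - 2 * κ) * x ^ (2 * κ) = x := by
      rw [← Real.rpow_add hx0]
      rw [show 1 - 2 * κ + 2 * κ = 1 by ring, Real.rpow_one]
    calc x ^ (1 - 2 * κ) * (2 * |1 - κ| * Real.log x)
        = x ^ (1 - 2 * κ) * 2 * (|1 - κ| * Real.log x) := by ring
      _ ≤ x ^ (1 - 2 * κ) * 2 * (κ * Real.log 2 / 8 * x ^ (2 * κ)) :=
          mul_le_mul_of_nonneg_left h2 (by positivity)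
      _ = κ * Real.log 2 / 4 * (x ^ (1 - 2 * κ) * x ^ (2 * κ)) := by ring
      _ = κ * x * Real.log 2 / 4 := by rw [h4]; ring

/-- for large primes `n` the deviation has probability at least `1/n` -/
theorem prime_prob {c : ℝ} (hc : 0 < c) (hc2 : c ^ 2 < Real.log 2) :
    ∀ᶠ n : ℕ in atTop, n.Prime →
      1 / (n : ℝ) ≤ cp (MS.T n) (fun U => c * √(n : ℝ) * Real.log n ≤ cs (MS.T n) (MS.w n) U) := by
  have hl2 : 0 < Real.log 2 := Real.log_pos (by norm_num)
  set s : ℝ := √(c ^ 2 / Real.log 2) with hs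
  have hs0 : 0 < s := Real.sqrt_pos.2 (by positivity)
  have hs2 : s ^ 2 = c ^ 2 / Real.log 2 := Real.sq_sqrt (by positivity)
  have hs1 : s < 1 := by
    have : s ^ 2 < 1 := by rw [hs2, div_lt_one hl2]; exact hc2
    nlinarith
  set κ : ℝ := (1 - s) / 6 with hκ
  have hκ0 : 0 < κ := by rw [hκ]; linarith
  have hκ1 : κ ≤ 1 / 6 := by rw [hκ]; linarith
  have h1κ : 0 < 1 - κ := by linarith
  set θ : ℝ := s ^ 2 / (1 - κ) ^ 2 with hθ
  have hθ0 : 0 < θ := by positivity
  have h1 : θ * (1 + 2 * κ) ^ 2 < 1 := by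
    rw [hθ, div_mul_eq_mul_div, div_lt_one (by positivity), ← mul_pow]
    apply pow_lt_pow_left₀ _ (by positivity) (by norm_num)
    rw [hκ]; nlinarith
  have hθ1 : θ < 1 := by nlinarith [mul_pos hθ0 hκ0, mul_pos (mul_pos hθ0 hκ0) hκ0]
  have h2 : c ^ 2 = θ * ((1 - κ) ^ 2 * Real.log 2) := by
    rw [hθ, hs2]; field_simp
  have h3 := tendsto_natCast_atTop_atTop.eventually
    (eventually_all (c := c) hκ0 hθ0 h1)
  filter_upwards [h3] with n hn hp
  obtain ⟨a1, a2, a3, a4, a5, a6⟩ := hn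
  have hn1 : 1 ≤ n := hp.one_le
  refine core (MS.T n) (MS.w n) (fun p _ => MS.nn n p) hκ0 hκ1 hc hθ1 h2 a1 (WW_ge hn1) ?_
    a2 a3 a4 a5
  refine le_trans ?_ a6
  have hlog : 0 < Real.log n := Real.log_pos (by linarith)
  calc ∑ p ∈ (MS.T n).filter (fun p => MS.w n p < 2 * (1 - κ) * Real.log n), MS.w n p
      ≤ ∑ p ∈ (MS.T n).filter (fun p => MS.w n p < 2 * (1 - κ) * Real.log n),
        2 * |1 - κ| * Real.log n := by
        apply sum_le_sum
        intro p hp'
        refine (mem_filter.1 hp').2.le.trans ?_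
        rw [abs_of_pos h1κ]
    _ = ((MS.T n).filter (fun p => MS.w n p < 2 * (1 - κ) * Real.log n)).card *
        (2 * |1 - κ| * Real.log n) := by rw [sum_const, nsmul_eq_mul]
    _ ≤ _ := mul_le_mul_of_nonneg_right (bad_card hp κ) (by positivity)

end Pool.Agent.Helper11.SO
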