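import Mathlib
import Pool.Agent.Helper11.SO.Ari

/-! Almost sure fluctuations of `log M_Q(n)` of order `√n log n`. -/

namespace Pool.Agent.Helper11.SO

open Finset MeasureTheory ProbabilityTheory Filter Pool.Agent.Helper42.RP

lemma cp_prod (T : ℕ → Finset ℕ) (φ : ℕ → Finset ℕ → Prop) (I : Finset ℕ)
    (hd : ∀ i ∈ I, ∀ j ∈ I, i ≠ j → Disjoint (T i) (T j)) :
    cp (I.biUnion T) (fun U => ∀ i ∈ I, φ i (U ∩ T i)) = ∏ i ∈ I, cp (T i) (φ i) := by
  classical
  induction I using Finset.induction_on with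
  | empty =>
    rw [prod_empty, ← cp_true ((∅ : Finset ℕ).biUnion T)]
    exact cp_congr _ fun U _ => by simp
  | insert a I ha ih =>
    have hdis : Disjoint (T a) (I.biUnion T) := by
      rw [disjoint_biUnion_right]
      intro j hj
      exact hd a (mem_insert_self _ _) j (mem_insert_of_mem hj) fun h => ha (h ▸ hj)
    have h1 := cp_indep (T a) (I.biUnion T) hdis (φ a) (fun W => ∀ i ∈ I, φ i (W ∩ T i))
    rw [prod_insert ha, ← ih fun i hi j hj => hd i (mem_insert_of_mem hi) j (mem_insert_of_mem hj),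
      ← h1, biUnion_insert]
    apply cp_congr
    intro U _
    rw [forall_mem_insert]
    refine and_congr Iff.rfl ?_
    refine forall_congr' fun i => forall_congr' fun hi => ?_
    have h2 : U ∩ I.biUnion T ∩ T i = U ∩ T i := by
      rw [inter_assoc, inter_eq_right.2 (subset_biUnion_of_mem T hi)]
    rw [h2]

variable {Ω : Type*} [MeasurableSpace Ω] {P : Measure Ω} {Q : Ω → Set ℕ}

/-- events depending on disjoint sets of primes are independent -/
lemma indep_events (h : Fair P Q) (T : ℕ → Finset ℕ) (hT : ∀ n, ∀ p ∈ T n, p.Prime)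
    (φ : ℕ → Finset ℕ → Prop) (A : ℕ → Prop)
    (hd : ∀ i j, A i → A j → i ≠ j → Disjoint (T i) (T j)) :
    iIndepSet (fun n => {ω | A n ∧ φ n (kept Q (T n) ω)}) P := by
  classical
  have hm : ∀ n, MeasurableSet {ω | A n ∧ φ n (kept Q (T n) ω)} := fun n =>
    measurable_kept (fun p hp => h.meas' (hT n p hp)) (fun U => A n ∧ φ n U)
  rw [iIndepSet_iff_meas_biInter hm]
  intro I
  by_cases hA : ∀ i ∈ I, A i
  · have h1 : (⋂ i ∈ I, {ω | A i ∧ φ i (kept Q (T i) ω)}) =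
        {ω | ∀ i ∈ I, φ i (kept Q (I.biUnion T) ω ∩ T i)} := by
      ext ω
      simp only [Set.mem_iInter, Set.mem_ofPred_eq]
      refine forall_congr' fun i => forall_congr' fun hi => ?_
      rw [kept_inter (subset_biUnion_of_mem T hi)]
      exact ⟨fun h2 => h2.2, fun h2 => ⟨hA i hi, h2⟩⟩
    have hTI : ∀ p ∈ I.biUnion T, p.Prime := by
      intro p hp
      obtain ⟨i, -, hpi⟩ := mem_biUnion.1 hp
      exact hT i p hpi
    rw [h1, h.prob_eq hTI (fun U => ∀ i ∈ I, φ i (U ∩ T i)),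
      cp_prod T φ I fun i hi j hj => hd i j (hA i hi) (hA j hj),
      ENNReal.ofReal_prod_of_nonneg fun i _ => cp_nonneg _ _]
    apply prod_congr rfl
    intro i hi
    rw [← h.prob_eq (hT i) (φ i)]
    congr 1
    ext ω
    exact ⟨fun h2 => ⟨hA i hi, h2⟩, fun h2 => h2.2⟩
  · push Not at hA
    obtain ⟨i, hi, hAi⟩ := hA
    have h1 : {ω | A i ∧ φ i (kept Q (T i) ω)} = ∅ := by
      ext ω
      simp [hAi]
    have h2 : (⋂ i ∈ I, {ω | A i ∧ φ i (kept Q (T i) ω)}) = ∅ := by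
      rw [Set.eq_empty_iff_forall_notMem]
      intro ω hω
      have := Set.mem_iInter₂.1 hω i hi
      rw [h1] at this
      exact this
    rw [h2, measure_empty, prod_eq_zero hi (by rw [h1, measure_empty])]

lemma mers_disjoint {n m : ℕ} (hn : n.Prime) (hm : m.Prime) (hnm : n ≠ m) :
    Disjoint (MS.T n) (MS.T m) := by
  rw [disjoint_left]
  intro p hp hq
  have h1 := Nat.dvd_gcd (Nat.dvd_of_mem_primeFactors hp) (Nat.dvd_of_mem_primeFactors hq)
  rw [Nat.pow_sub_one_gcd_pow_sub_one, (Nat.coprime_primes hn hm).2 hnm] at h1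
  exact (MS_prime n p hp).one_lt.ne' (Nat.dvd_one.1 h1)

/-- one sided fluctuation -/
theorem upper (h : Fair P Q) {c : ℝ} (hc : 0 < c) (hc2 : c ^ 2 < Real.log 2) :
    ∀ᵐ ω ∂P, ∃ᶠ n : ℕ in atTop, WW n / 2 + c * √(n : ℝ) * Real.log n ≤ MS.X Q n ω := by
  classical
  have := h.isProb
  obtain ⟨n0, hn0⟩ := eventually_atTop.1 (prime_prob hc hc2)
  set φ : ℕ → Finset ℕ → Prop := fun n U =>
    c * √(n : ℝ) * Real.log n ≤ cs (MS.T n) (MS.w n) U with hφ
  set A : ℕ → Prop := fun n => n.Prime ∧ n0 ≤ n with hA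
  set s : ℕ → Set Ω := fun n => {ω | A n ∧ φ n (kept Q (MS.T n) ω)} with hs
  have hm : ∀ n, MeasurableSet (s n) := fun n =>
    measurable_kept (fun p hp => h.meas' (MS_prime n p hp)) (fun U => A n ∧ φ n U)
  have hind : iIndepSet s P := indep_events h MS.T MS_prime φ A
    fun i j hi hj hij => mers_disjoint hi.1 hj.1 hij
  have hP : ∀ n, A n → 1 / (n : ℝ) ≤ (P (s n)).toReal := by
    intro n hn
    have h1 : s n = {ω | φ n (kept Q (MS.T n) ω)} := by
      ext ω
      exact ⟨fun h2 => h2.2, fun h2 => ⟨hn, h2⟩⟩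
    rw [h1, h.prob_eq (MS_prime n) (φ n), ENNReal.toReal_ofReal (cp_nonneg _ _)]
    exact hn0 n hn.2 hn.1
  have hsum : ∑' n, P (s n) = ⊤ := by
    by_contra hcon
    have h1 : Summable fun n => (P (s n)).toReal := ENNReal.summable_toReal hcon
    apply not_summable_one_div_on_primes
    refine Summable.of_norm_bounded_eventually_nat h1 ?_
    filter_upwards [eventually_ge_atTop n0] with n hn
    by_cases hp : n.Prime
    · rw [Set.indicator_of_mem (show n ∈ {p : ℕ | p.Prime} from hp),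
        Real.norm_of_nonneg (by positivity)]
      exact hP n ⟨hp, hn⟩
    · rw [Set.indicator_of_notMem (show n ∉ {p : ℕ | p.Prime} from hp), norm_zero]
      positivity
  have h1 := measure_limsup_eq_one hm hind hsum
  have hml : MeasurableSet (limsup s atTop) := MeasurableSet.measurableSet_limsup hm
  have h2 : ∀ᵐ ω ∂P, ω ∈ limsup s atTop := (mem_ae_iff_prob_eq_one hml).2 h1
  filter_upwards [h2] with ω hω
  rw [mem_limsup_iff_frequently_mem] at hω
  refine hω.mono fun n hn => ?_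
  have h3 := hn.2
  simp only [hφ, cs] at h3
  have h4 : WW n / 2 = 1 / 2 * ∑ p ∈ MS.T n, MS.w n p := by unfold WW; ring
  rw [h4]
  have h5 : MS.X Q n ω = ∑ p ∈ kept Q (MS.T n) ω, MS.w n p := rfl
  rw [h5]
  linarith

lemma seq_lt (k : ℕ) : 0 < √(Real.log 2) * (1 - 1 / ((k : ℝ) + 2)) ∧
    (√(Real.log 2) * (1 - 1 / ((k : ℝ) + 2))) ^ 2 < Real.log 2 := by
  have hl2 : 0 < Real.log 2 := Real.log_pos (by norm_num)
  have h1 : 0 < 1 / ((k : ℝ) + 2) := by positivity
  have h2 : 1 / ((k : ℝ) + 2) < 1 := by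
    rw [div_lt_one (by positivity)]
    have : (0 : ℝ) ≤ k := Nat.cast_nonneg k
    linarith
  refine ⟨mul_pos (Real.sqrt_pos.2 hl2) (by linarith), ?_⟩
  rw [mul_pow, Real.sq_sqrt hl2.le]
  have h3 : (1 - 1 / ((k : ℝ) + 2)) ^ 2 < 1 := by nlinarith
  nlinarith

/-- Fluctuations of order `√n log n` in both directions. -/
theorem second_order (h : Fair P Q) : ∀ᵐ ω ∂P, ∀ c : ℝ, c < √(Real.log 2) →
    (∃ᶠ n : ℕ in atTop, (n : ℝ) / 2 * Real.log 2 + c * √(n : ℝ) * Real.log n ≤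
      Real.log (MQ (Q ω) n)) ∧
    (∃ᶠ n : ℕ in atTop, Real.log (MQ (Q ω) n) ≤
      (n : ℝ) / 2 * Real.log 2 - c * √(n : ℝ) * Real.log n) := by
  have hl2 : 0 < Real.log 2 := Real.log_pos (by norm_num)
  have h1 : ∀ᵐ ω ∂P, ∀ k : ℕ, ∃ᶠ n : ℕ in atTop,
      WW n / 2 + √(Real.log 2) * (1 - 1 / ((k : ℝ) + 2)) * √(n : ℝ) * Real.log n ≤
        MS.X Q n ω := ae_all_iff.2 fun k => upper h (seq_lt k).1 (seq_lt k).2
  have h2 : ∀ᵐ ω ∂P, ∀ k : ℕ, ∃ᶠ n : ℕ in atTop,
      WW n / 2 + √(Real.log 2) * (1 - 1 / ((k : ℝ) + 2)) * √(n : ℝ) * Real.log n ≤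
        MS.X (fun ω => (Q ω)ᶜ) n ω := ae_all_iff.2 fun k => upper h.compl (seq_lt k).1 (seq_lt k).2
  filter_upwards [h1, h2] with ω g1 g2 c hc
  have hs : 0 < √(Real.log 2) := Real.sqrt_pos.2 hl2
  obtain ⟨k, hk⟩ := exists_nat_one_div_lt (div_pos (sub_pos.2 hc) hs)
  have hk2 : 1 / ((k : ℝ) + 2) ≤ 1 / ((k : ℝ) + 1) :=
    one_div_le_one_div_of_le (by positivity) (by linarith)
  set c' : ℝ := √(Real.log 2) * (1 - 1 / ((k : ℝ) + 2)) with hc'
  have hcc : c < c' := by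
    have h3 : 1 / ((k : ℝ) + 2) < (√(Real.log 2) - c) / √(Real.log 2) := hk2.trans_lt hk
    rw [lt_div_iff₀ hs] at h3
    rw [hc']; linarith
  have hev : ∀ᶠ n : ℕ in atTop, 1 ≤ n ∧ Real.log 2 / 2 ≤ (c' - c) * √(n : ℝ) * Real.log n := by
    have h3 : Tendsto (fun x : ℝ => (c' - c) * √x * Real.log x) atTop atTop := by
      apply Tendsto.atTop_mul_atTop₀
      · exact Tendsto.const_mul_atTop (by linarith) Real.tendsto_sqrt_atTop
      · exact Real.tendsto_log_atTop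
    exact (eventually_ge_atTop 1).and
      (tendsto_natCast_atTop_atTop.eventually (h3.eventually_ge_atTop (Real.log 2 / 2)))
  constructor
  · refine ((g1 k).and_eventually hev).mono ?_
    rintro n ⟨h3, h4, h5⟩
    rw [log_MQ h4]
    have h6 := WW_ge h4
    have h7 : c' * √(n : ℝ) * Real.log n = c * √(n : ℝ) * Real.log n +
      (c' - c) * √(n : ℝ) * Real.log n := by ring
    rw [h7] at h3
    linarith
  · refine ((g2 k).and_eventually hev).mono ?_
    rintro n ⟨h3, h4, h5⟩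
    rw [log_MQ h4]
    have h6 := WW_le n
    have h8 := X_add_compl (Q := Q) n ω
    have h7 : c' * √(n : ℝ) * Real.log n = c * √(n : ℝ) * Real.log n +
      (c' - c) * √(n : ℝ) * Real.log n := by ring
    rw [h7] at h3
    linarith

/-! ### the order cannot be improved without large prime powers -/

lemma tail_le {A c : ℝ} (hA : 0 < A) (hc : 0 < c) {n : ℕ} (hn : 2 ≤ n)
    (hp : ∀ p ∈ MS.T n, MS.w n p ≤ A * Real.log n) :
    cp (MS.T n) (fun U => 1 / 2 * ∑ p ∈ MS.T n, MS.w n p + c * √(n : ℝ) * Real.log n ≤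
      ∑ p ∈ U, MS.w n p) ≤ (n : ℝ) ^ (-(2 * c ^ 2 / (A * Real.log 2))) := by
  have hl2 : 0 < Real.log 2 := Real.log_pos (by norm_num)
  have hn0 : (0 : ℝ) < n := by positivity
  have hlog : 0 < Real.log n := Real.log_pos (by exact_mod_cast (by omega : 1 < n))
  set x : ℝ := c * √(n : ℝ) * Real.log n with hx
  have hx2 : x ^ 2 = c ^ 2 * n * Real.log n ^ 2 := by
    rw [hx, mul_pow, mul_pow, Real.sq_sqrt hn0.le]
  set D : ℝ := A * Real.log n * (n * Real.log 2) with hD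
  have hD0 : 0 < D := by positivity
  have hsum : ∑ p ∈ MS.T n, MS.w n p ^ 2 ≤ D := by
    calc ∑ p ∈ MS.T n, MS.w n p ^ 2 ≤ ∑ p ∈ MS.T n, A * Real.log n * MS.w n p := by
          apply sum_le_sum
          intro p hpT
          rw [sq]
          exact mul_le_mul_of_nonneg_right (hp p hpT) (MS.nn n p)
      _ = A * Real.log n * WW n := by rw [← mul_sum]; rfl
      _ ≤ D := mul_le_mul_of_nonneg_left (WW_le n) (by positivity)
  have hx0 : 0 < x := by positivity
  refine (cp_hoeffding (MS.T n) (MS.w n) (4 * x / D) x (by positivity)).trans ?_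
  rw [Real.rpow_def_of_pos hn0]
  apply Real.exp_le_exp.2
  have h1 : (4 * x / D) ^ 2 * (∑ p ∈ MS.T n, MS.w n p ^ 2) / 8 ≤ (4 * x / D) ^ 2 * D / 8 := by
    have := mul_le_mul_of_nonneg_left hsum (sq_nonneg (4 * x / D))
    linarith
  have h2 : (4 * x / D) ^ 2 * D / 8 = 2 * x ^ 2 / D := by field_simp; ring
  have h3 : 4 * x / D * x = 4 * x ^ 2 / D := by ring
  have h4 : x ^ 2 / D = c ^ 2 * Real.log n / (A * Real.log 2) := by
    rw [hx2, hD]; field_simp
  have h5 : Real.log n * -(2 * c ^ 2 / (A * Real.log 2)) = -(2 * (x ^ 2 / D)) := by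
    rw [h4]; ring
  rw [h5]
  have h6 : 4 * x ^ 2 / D = 4 * (x ^ 2 / D) := by ring
  have h7 : 2 * x ^ 2 / D = 2 * (x ^ 2 / D) := by ring
  linarith

theorem one_side (h : Fair P Q) {A c : ℝ} (hA : 0 < A) (hc : 0 < c)
    (hH : ∀ᶠ n : ℕ in atTop, ∀ p ∈ MS.T n, MS.w n p ≤ A * Real.log n)
    (hcA : A * Real.log 2 / 2 < c ^ 2) :
    ∀ᵐ ω ∂P, ∀ᶠ n : ℕ in atTop, MS.X Q n ω < WW n / 2 + c * √(n : ℝ) * Real.log n := by
  classical
  have := h.isProb
  have hl2 : 0 < Real.log 2 := Real.log_pos (by norm_num)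
  set φ : ℕ → Finset ℕ → Prop := fun n U =>
    1 / 2 * ∑ p ∈ MS.T n, MS.w n p + c * √(n : ℝ) * Real.log n ≤ ∑ p ∈ U, MS.w n p with hφ
  set s : ℕ → Set Ω := fun n => {ω | φ n (kept Q (MS.T n) ω)} with hs
  have hsum : ∑' n, P (s n) ≠ ⊤ := by
    have h1 : ∀ n, P (s n) = ENNReal.ofReal (cp (MS.T n) (φ n)) := fun n =>
      h.prob_eq (MS_prime n) (φ n)
    simp_rw [h1]
    apply Summable.tsum_ofReal_ne_top
    have h2 : Summable fun n : ℕ => (n : ℝ) ^ (-(2 * c ^ 2 / (A * Real.log 2))) := by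
      rw [Real.summable_nat_rpow]
      have : 1 < 2 * c ^ 2 / (A * Real.log 2) := by
        rw [lt_div_iff₀ (by positivity)]; linarith
      linarith
    refine Summable.of_norm_bounded_eventually_nat h2 ?_
    filter_upwards [hH, eventually_ge_atTop 2] with n h3 h4
    rw [Real.norm_of_nonneg (cp_nonneg _ _)]
    exact tail_le hA hc h4 h3
  have h1 := measure_limsup_atTop_eq_zero hsum
  have h2 : ∀ᵐ ω ∂P, ω ∉ limsup s atTop := measure_eq_zero_iff_ae_notMem.1 h1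
  filter_upwards [h2] with ω hω
  rw [mem_limsup_iff_frequently_mem, not_frequently] at hω
  filter_upwards [hω] with n hn
  have h4 : WW n / 2 = 1 / 2 * ∑ p ∈ MS.T n, MS.w n p := by unfold WW; ring
  rw [h4]
  exact not_le.1 hn

/-- If all prime powers exactly dividing `2^n-1` are at most `n^A`, then the fluctuations are of
order `√n log n`. -/
theorem sharp (h : Fair P Q) {A : ℝ} (hA : 0 < A)
    (hH : ∀ᶠ n : ℕ in atTop, ∀ p : ℕ, p.Prime →
      ((p ^ (2 ^ n - 1).factorization p : ℕ) : ℝ) ≤ (n : ℝ) ^ A) :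
    ∀ᵐ ω ∂P, ∀ c : ℝ, √(A * Real.log 2 / 2) < c →
      ∀ᶠ n : ℕ in atTop, |Real.log (MQ (Q ω) n) - (n : ℝ) / 2 * Real.log 2| ≤
        c * √(n : ℝ) * Real.log n := by
  have hl2 : 0 < Real.log 2 := Real.log_pos (by norm_num)
  have hH' : ∀ᶠ n : ℕ in atTop, ∀ p ∈ MS.T n, MS.w n p ≤ A * Real.log n := by
    filter_upwards [hH, eventually_ge_atTop 1] with n h1 h2 p hp
    have hpp := MS_prime n p hp
    have h3 := h1 p hpp
    have hn0 : (0 : ℝ) < n := by exact_mod_cast h2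
    have hp0 : (0 : ℝ) < p := by exact_mod_cast hpp.pos
    have h4 := Real.log_le_log (by push_cast; positivity) h3
    rw [Real.log_rpow hn0] at h4
    push_cast at h4
    rw [Real.log_pow] at h4
    exact h4
  set σ : ℝ := √(A * Real.log 2 / 2) with hσ
  have hσ0 : 0 < σ := Real.sqrt_pos.2 (by positivity)
  have hσ2 : σ ^ 2 = A * Real.log 2 / 2 := Real.sq_sqrt (by positivity)
  have hk : ∀ k : ℕ, 0 < σ + 1 / ((k : ℝ) + 1) ∧
      A * Real.log 2 / 2 < (σ + 1 / ((k : ℝ) + 1)) ^ 2 := by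
    intro k
    have h1 : 0 < 1 / ((k : ℝ) + 1) := by positivity
    refine ⟨by positivity, ?_⟩
    rw [← hσ2]
    exact pow_lt_pow_left₀ (by linarith) hσ0.le (by norm_num)
  have h1 : ∀ᵐ ω ∂P, ∀ k : ℕ, ∀ᶠ n : ℕ in atTop,
      MS.X Q n ω < WW n / 2 + (σ + 1 / ((k : ℝ) + 1)) * √(n : ℝ) * Real.log n :=
    ae_all_iff.2 fun k => one_side h hA (hk k).1 hH' (hk k).2
  have h2 : ∀ᵐ ω ∂P, ∀ k : ℕ, ∀ᶠ n : ℕ in atTop,
      MS.X (fun ω => (Q ω)ᶜ) n ω <
        WW n / 2 + (σ + 1 / ((k : ℝ) + 1)) * √(n : ℝ) * Real.log n :=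
    ae_all_iff.2 fun k => one_side h.compl hA (hk k).1 hH' (hk k).2
  filter_upwards [h1, h2] with ω g1 g2 c hc
  obtain ⟨k, hk'⟩ := exists_nat_one_div_lt (sub_pos.2 hc)
  have hcc : σ + 1 / ((k : ℝ) + 1) < c := by linarith
  set c' : ℝ := σ + 1 / ((k : ℝ) + 1) with hc'
  have hev : ∀ᶠ n : ℕ in atTop, Real.log 2 ≤ (c - c') * √(n : ℝ) * Real.log n := by
    have h3 : Tendsto (fun x : ℝ => (c - c') * √x * Real.log x) atTop atTop := by
      apply Tendsto.atTop_mul_atTop₀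
      · exact Tendsto.const_mul_atTop (by linarith) Real.tendsto_sqrt_atTop
      · exact Real.tendsto_log_atTop
    exact tendsto_natCast_atTop_atTop.eventually (h3.eventually_ge_atTop (Real.log 2))
  filter_upwards [g1 k, g2 k, hev, eventually_ge_atTop 1] with n h3 h4 h5 h6
  rw [log_MQ h6]
  have h7 := WW_ge h6
  have h8 := WW_le n
  have h9 := X_add_compl (Q := Q) n ω
  have h10 : c * √(n : ℝ) * Real.log n = c' * √(n : ℝ) * Real.log n +
    (c - c') * √(n : ℝ) * Real.log n := by ring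
  rw [h10, abs_le]
  constructor <;> linarith

end Pool.Agent.Helper11.SO
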